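import Pool.Agent.Helper69.QG.St2

/-! # QG MODULE AUT: the automorphism of the shear -/

namespace Pool.Agent.Helper48.QG

open Pool.Agent.Helper69.QG

theorem key {G : Type} [Group G] (A X : G) (n : ℕ) (h : (A * X) ^ n = 1) (hX : X⁻¹ = X) :
    (A * X⁻¹) ^ n = 1 ∧ (X * A⁻¹) ^ n = 1 ∧ (A⁻¹ * X) ^ n = 1 ∧ (X⁻¹ * A) ^ n = 1 := by
  have h1 : (A * X⁻¹) ^ n = 1 := by rw [hX]; exact h
  have h2 : (X * A⁻¹) ^ n = 1 := by
    have e : X * A⁻¹ = (A * X⁻¹)⁻¹ := by group
    rw [e, inv_pow, h1, inv_one]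
  have h4 : (X⁻¹ * A) ^ n = 1 := by
    have e : X⁻¹ * A = A⁻¹ * (A * X⁻¹) * A⁻¹⁻¹ := by group
    rw [e, conj_pow, h1]; group
  have h3 : (A⁻¹ * X) ^ n = 1 := by
    have e : A⁻¹ * X = (X⁻¹ * A)⁻¹ := by group
    rw [e, inv_pow, h4, inv_one]
  exact ⟨h1, h2, h3, h4⟩

theorem rel {G : Type} [Group G] (A X y : G) (hX : X * X = 1) (hy : y * y = 1)
    (hAX : (A * X) ^ 2 = 1) (hAy : (A * y) ^ 4 = 1) (p : Fin 4 → G) (p0 : p 0 = 1)
    (p1 : p 1 = A) (p2 : p 2 = X) (p3 : p 3 = y) :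
    (∀ s t, (p s * (p t)⁻¹) ^ (cm s t) = 1) ∧ (∀ s t, ((p s)⁻¹ * p t) ^ (cm s t) = 1) := by
  have iX : X⁻¹ = X := inv_eq_of_mul_eq_one_right hX
  have iy : y⁻¹ = y := inv_eq_of_mul_eq_one_right hy
  obtain ⟨a1, a2, a3, a4⟩ := key A X 2 hAX iX
  obtain ⟨b1, b2, b3, b4⟩ := key A y 4 hAy iy
  have c1 : (p 0 * (p 2)⁻¹) ^ 2 = 1 := by rw [p0, p2, iX, one_mul, pow_two, hX]
  have c2 : (p 2 * (p 0)⁻¹) ^ 2 = 1 := by rw [p0, p2, inv_one, mul_one, pow_two, hX]
  have c3 : (p 0 * (p 3)⁻¹) ^ 2 = 1 := by rw [p0, p3, iy, one_mul, pow_two, hy]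
  have c4 : (p 3 * (p 0)⁻¹) ^ 2 = 1 := by rw [p0, p3, inv_one, mul_one, pow_two, hy]
  have d1 : ((p 0)⁻¹ * p 2) ^ 2 = 1 := by rw [p0, p2, inv_one, one_mul, pow_two, hX]
  have d2 : ((p 2)⁻¹ * p 0) ^ 2 = 1 := by rw [p0, p2, iX, mul_one, pow_two, hX]
  have d3 : ((p 0)⁻¹ * p 3) ^ 2 = 1 := by rw [p0, p3, inv_one, one_mul, pow_two, hy]
  have d4 : ((p 3)⁻¹ * p 0) ^ 2 = 1 := by rw [p0, p3, iy, mul_one, pow_two, hy]
  rw [← p1, ← p2] at a1 a2 a3 a4
  rw [← p1, ← p3] at b1 b2 b3 b4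
  have s1 : ∀ s, (p s * (p s)⁻¹) ^ 1 = 1 := fun s => by rw [mul_inv_cancel, one_pow]
  have s2 : ∀ s, ((p s)⁻¹ * p s) ^ 1 = 1 := fun s => by rw [inv_mul_cancel, one_pow]
  constructor
  · intro s t
    fin_cases s <;> fin_cases t
    all_goals first
      | exact s1 _
      | exact pow_zero _
      | exact c1
      | exact c2
      | exact c3
      | exact c4
      | exact a1
      | exact a2
      | exact b1
      | exact b2
  · intro s t
    fin_cases s <;> fin_cases t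
    all_goals first
      | exact s2 _
      | exact pow_zero _
      | exact d1
      | exact d2
      | exact d3
      | exact d4
      | exact a3
      | exact a4
      | exact b3
      | exact b4

theorem gen_self (s : Fin 4) : gen s * gen s = 1 := cs.simple_mul_simple_self s

theorem gen_pow (s t : Fin 4) : (gen s * gen t) ^ (cm s t) = 1 := cs.simple_mul_simple_pow s t

theorem theta_ok : cm.IsLiftable (fun s : Fin 4 => gen (s + 2)) := by
  intro i j
  have h := gen_pow (i + 2) (j + 2)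
  have e : cm (i + 2) (j + 2) = cm i j := by
    fin_cases i <;> fin_cases j <;> rfl
  rw [e] at h
  exact h

noncomputable def theta : W →* W := cs.lift ⟨fun s : Fin 4 => gen (s + 2), theta_ok⟩

theorem theta_gen (s : Fin 4) : theta (gen s) = gen (s + 2) := cs.lift_apply_simple theta_ok s

theorem theta_theta : theta.comp theta = MonoidHom.id W := by
  apply cs.ext_simple
  intro i
  have h1 : theta (gen i) = gen (i + 2) := theta_gen i
  have h2 : theta (gen (i + 2)) = gen (i + 2 + 2) := theta_gen (i + 2)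
  have h3 : i + 2 + 2 = i := by fin_cases i <;> rfl
  have h4 : theta (theta (gen i)) = gen i := by rw [h1, h2, h3]
  exact h4

theorem cAUT (evl : St_EVL) : St_AUT := by
  obtain ⟨H, ex, un, -, -⟩ := evl
  constructor
  · -- the three elements
    have hA2 : (⟨gen 2 * gen 0, H 2⟩ : Ev) * ⟨gen 2 * gen 0, H 2⟩ = 1 := by
      apply Subtype.ext
      have h : (gen 2 * gen 0) ^ 2 = 1 := gen_pow 2 0
      rw [pow_two] at h
      exact h
    have hA3 : (⟨gen 3 * gen 0, H 3⟩ : Ev) * ⟨gen 3 * gen 0, H 3⟩ = 1 := by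
      apply Subtype.ext
      have h : (gen 3 * gen 0) ^ 2 = 1 := gen_pow 3 0
      rw [pow_two] at h
      exact h
    have comm : ∀ s : Fin 4, (gen s * gen 0) ^ 2 = 1 → ∀ t : Fin 4,
        gen t * gen 0 * (gen s * gen 0) = gen t * gen s := by
      intro s hs t
      have e1 : gen s * gen 0 = gen 0 * gen s := by
        have h := hs
        rw [pow_two] at h
        have h' : gen s * gen 0 = (gen s * gen 0)⁻¹ := (inv_eq_of_mul_eq_one_right h).symm
        rw [mul_inv_rev, inv_eq_of_mul_eq_one_right (gen_self 0),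
          inv_eq_of_mul_eq_one_right (gen_self s)] at h'
        exact h'
      rw [e1, mul_assoc, ← mul_assoc (gen 0) (gen 0) (gen s), gen_self, one_mul]
    have hAx : ((⟨gen 1 * gen 0, H 1⟩ : Ev) * ⟨gen 2 * gen 0, H 2⟩) ^ 2 = 1 := by
      apply Subtype.ext
      have h : (gen 1 * gen 0 * (gen 2 * gen 0)) ^ 2 = 1 := by
        rw [comm 2 (gen_pow 2 0) 1]; exact gen_pow 1 2
      exact h
    have hAy : ((⟨gen 1 * gen 0, H 1⟩ : Ev) * ⟨gen 3 * gen 0, H 3⟩) ^ 4 = 1 := by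
      apply Subtype.ext
      have h : (gen 1 * gen 0 * (gen 3 * gen 0)) ^ 4 = 1 := by
        rw [comm 3 (gen_pow 3 0) 1]; exact gen_pow 1 3
      exact h
    have h0 : (⟨gen 0 * gen 0, H 0⟩ : Ev) = 1 := Subtype.ext (gen_self 0)
    generalize hA : (⟨gen 1 * gen 0, H 1⟩ : Ev) = A at hAx hAy
    generalize hx : (⟨gen 2 * gen 0, H 2⟩ : Ev) = x at hAx hA2
    generalize hy : (⟨gen 3 * gen 0, H 3⟩ : Ev) = y at hAy hA3
    have k1 : A * x * A * x = 1 := by rw [pow_two] at hAx; rw [← hAx]; group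
    have k2 : x * A = A⁻¹ * x := by
      have ix : x⁻¹ = x := inv_eq_of_mul_eq_one_right hA2
      have : x * A * x = A⁻¹ := by
        have h : A * (x * A * x) = 1 := by rw [← k1]; group
        exact (inv_eq_of_mul_eq_one_right h).symm
      calc x * A = x * A * x * x := by rw [mul_assoc (x * A) x x, hA2, mul_one]
        _ = A⁻¹ * x := by rw [this]
    -- first homomorphism
    obtain ⟨r1, r2⟩ := rel A (A⁻¹ * x) y
      (by
        calc A⁻¹ * x * (A⁻¹ * x) = A⁻¹ * x * (x * A) := by rw [k2]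
          _ = A⁻¹ * (x * x) * A := by group
          _ = 1 := by rw [hA2]; group)
      hA3
      (by
        rw [pow_two]
        calc A * (A⁻¹ * x) * (A * (A⁻¹ * x)) = x * x := by group
          _ = 1 := hA2)
      hAy ![1, A, A⁻¹ * x, y] rfl rfl rfl rfl
    obtain ⟨q1, q2⟩ := rel A (A * x) y
      (by rw [← k1]; group)
      hA3
      (by
        rw [pow_two]
        calc A * (A * x) * (A * (A * x)) = A * (A * x * A) * (A * x) := by group
          _ = A * (A * x * A * x) * x⁻¹ * (A * x) := by group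
          _ = A * x⁻¹ * (A * x) := by rw [k1, mul_one]
          _ = A * x * (A * x) := by rw [inv_eq_of_mul_eq_one_right hA2]
          _ = 1 := by rw [← k1]; group)
      hAy ![1, A, A * x, y] rfl rfl rfl rfl
    obtain ⟨f, hf⟩ := ex Ev ![1, A, A⁻¹ * x, y] rfl r1 r2
    obtain ⟨g, hg⟩ := ex Ev ![1, A, A * x, y] rfl q1 q2
    have f1 : f A = A := by rw [← hA]; exact (hf 1 (H 1)).trans hA.symm
    have f2 : f x = A⁻¹ * x := by
      have h := hf 2 (H 2)
      rw [hx] at h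
      exact h
    have f3 : f y = y := by
      have h := hf 3 (H 3)
      rw [hy] at h
      exact h
    have g1 : g A = A := by
      have h := hg 1 (H 1)
      rw [hA] at h
      exact h
    have g2 : g x = A * x := by
      have h := hg 2 (H 2)
      rw [hx] at h
      exact h
    have g3 : g y = y := by
      have h := hg 3 (H 3)
      rw [hy] at h
      exact h
    have fg : f.comp g = MonoidHom.id Ev := by
      apply un
      intro s h
      fin_cases s
      · show f (g ⟨gen 0 * gen 0, H 0⟩) = ⟨gen 0 * gen 0, H 0⟩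
        rw [h0, map_one, map_one]
      · show f (g ⟨gen 1 * gen 0, H 1⟩) = ⟨gen 1 * gen 0, H 1⟩
        rw [hA, g1, f1]
      · show f (g ⟨gen 2 * gen 0, H 2⟩) = ⟨gen 2 * gen 0, H 2⟩
        rw [hx, g2, map_mul, f1, f2]; group
      · show f (g ⟨gen 3 * gen 0, H 3⟩) = ⟨gen 3 * gen 0, H 3⟩
        rw [hy, g3, f3]
    have gf : g.comp f = MonoidHom.id Ev := by
      apply un
      intro s h
      fin_cases s
      · show g (f ⟨gen 0 * gen 0, H 0⟩) = ⟨gen 0 * gen 0, H 0⟩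
        rw [h0, map_one, map_one]
      · show g (f ⟨gen 1 * gen 0, H 1⟩) = ⟨gen 1 * gen 0, H 1⟩
        rw [hA, f1, g1]
      · show g (f ⟨gen 2 * gen 0, H 2⟩) = ⟨gen 2 * gen 0, H 2⟩
        rw [hx, f2, map_mul, map_inv, g1, g2]; group
      · show g (f ⟨gen 3 * gen 0, H 3⟩) = ⟨gen 3 * gen 0, H 3⟩
        rw [hy, f3, g3]
    refine ⟨f.toMulEquiv g gf fg, ?_⟩
    intro h1 h2 h3
    refine ⟨?_, ?_, ?_⟩
    · show f ⟨gen 1 * gen 0, h1⟩ = _
      rw [hA, f1]
    · show f ⟨gen 2 * gen 0, h2⟩ = _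
      rw [hA, hx, f2]
    · show f ⟨gen 3 * gen 0, h3⟩ = _
      rw [hy, f3]
  · refine ⟨theta.toMulEquiv theta theta_theta theta_theta, ?_, ?_, ?_, ?_⟩
    · exact theta_gen 0
    · exact theta_gen 1
    · exact theta_gen 2
    · exact theta_gen 3

end Pool.Agent.Helper48.QG
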